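import Mathlib
import Pool.Agent.H15.G.R_seed8.H932R3.Close

set_option autoImplicit false

/-!
# Walking along the reachable slopes, with a real target
-/

namespace Pool.Agent.H350R3.QM

open Pool.Agent.H932R3

theorem near_of_log' {σ p : ℝ} (hp : 60 ≤ p) (hσ : 0 < σ)
    (h : |Real.log σ - Real.log p| ≤ 22 / (32 * p)) : p - 3 / 4 ≤ σ ∧ σ ≤ p + 3 / 4 := by
  have hp0 : 0 < p := by linarith
  obtain ⟨x, hx⟩ : ∃ x, x = Real.log σ - Real.log p := ⟨_, rfl⟩
  rw [← hx] at h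
  have h0 : 22 / (32 * p) ≤ 1 := by
    rw [div_le_one (by positivity)]
    linarith
  have h1 : |x| ≤ 1 := h.trans h0
  have h2 := Real.abs_exp_sub_one_sub_id_le h1
  have h3 : Real.exp x = σ / p := by
    rw [hx, Real.exp_sub, Real.exp_log hσ, Real.exp_log hp0]
  rw [h3] at h2
  have h4 : x ^ 2 ≤ 22 / (32 * p) * (1 / 80) := by
    have h5 : x ^ 2 = |x| * |x| := by rw [← pow_two, sq_abs]
    rw [h5]
    have h6 : |x| ≤ 1 / 80 := by
      refine h.trans ?_
      rw [div_le_div_iff₀ (by positivity) (by norm_num)]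
      linarith
    exact mul_le_mul h h6 (abs_nonneg x) (by positivity)
  have h5 : |σ / p - 1| ≤ 22 / (32 * p) * (81 / 80) := by
    have h6 : σ / p - 1 = (σ / p - 1 - x) + x := by ring
    rw [h6]
    refine (abs_add_le _ _).trans ?_
    linarith
  have h6 : |σ - p| ≤ 3 / 4 := by
    have h7 : σ - p = (σ / p - 1) * p := by
      field_simp
    rw [h7, abs_mul, abs_of_pos hp0]
    calc |σ / p - 1| * p ≤ 22 / (32 * p) * (81 / 80) * p :=
          mul_le_mul_of_nonneg_right h5 hp0.le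
      _ = 22 / 32 * (81 / 80) := by
        field_simp
      _ ≤ 3 / 4 := by norm_num
  rw [abs_le] at h6
  constructor <;> linarith

section

variable {δ r P : ℕ}

theorem RRq.bound (hδ : 0 < δ) (hP : 60 ≤ P) (hsm : Small r P) {p : ℕ} (hp : P ≤ p) (hpr : p ≤ r)
    (hmod : p % 4 = r % 4) {T : ℝ} (hT : |T| ≤ 10 / (32 * (r : ℝ))) {σ : ℝ} (hσ : Reach δ σ)
    (hlog : Real.log σ = 2 * (bet p - gam r - T)) :
    (p : ℝ) - 3 / 4 ≤ σ ∧ σ ≤ (p : ℝ) + 3 / 4 := by
  have hp1 : (60 : ℝ) ≤ p := by exact_mod_cast (show 60 ≤ p by omega)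
  have hr1 : (p : ℝ) ≤ r := by exact_mod_cast hpr
  refine near_of_log' hp1 (hσ.pos hδ) ?_
  have h1 : Real.log σ - Real.log p = 2 * (gam p - gam r - T) := by
    rw [hlog]
    unfold gam
    ring
  have h2 := hsm p hp hpr hmod
  rw [h1]
  have h3 : 1 / (32 * (r : ℝ)) ≤ 1 / (32 * (p : ℝ)) :=
    div_le_div_of_nonneg_left (by norm_num) (by linarith) (by linarith)
  have h4 : 22 / (32 * (p : ℝ)) = 22 * (1 / (32 * (p : ℝ))) := by
    ring
  have h5 : 10 / (32 * (r : ℝ)) = 10 * (1 / (32 * (r : ℝ))) := by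
    ring
  rw [h4]
  rw [h5] at hT
  rw [abs_le] at h2 hT ⊢
  constructor <;> linarith [h2.1, h2.2, hT.1, hT.2]

theorem RRq.stepU (hδ : 0 < δ) (hP : 60 ≤ P) (hsm : Small r P) {p : ℕ} (hp : P ≤ p)
    (hpr : p ≤ r) (hmod : p % 4 = r % 4) {T : ℝ} (hT : |T| ≤ 10 / (32 * (r : ℝ)))
    (h : RR δ r p T) : RR δ r (p + 4) T := by
  obtain ⟨σ, hσ, hlog⟩ := h
  obtain ⟨h1, h2⟩ := hσ.pos hδ |> fun _ => RRq.bound hδ hP hsm hp hpr hmod hT hσ hlog
  have hσ0 := hσ.pos hδ
  have hp15 : (60 : ℝ) ≤ p := by exact_mod_cast (show 60 ≤ p by omega)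
  have h3 := Reach.step σ (p + 1) hσ (by push_cast; linarith)
  have h4 := Reach.step _ (p + 3) h3 (by
    push_cast
    rw [div_le_iff₀ hσ0]
    nlinarith)
  refine ⟨_, h4, ?_⟩
  push_cast
  rw [Real.log_div (by positivity) (by positivity), Real.log_div (by positivity) (by positivity),
    Real.log_pow, Real.log_pow, hlog, bet_add]
  push_cast
  ring

theorem RRq.stepA (hδ : 0 < δ) (hP : 60 ≤ P) (hsm : Small r P) {p : ℕ} (hp : P ≤ p)
    (hpr : p ≤ r) (hmod : p % 4 = r % 4) {T : ℝ} (hT : |T| ≤ 10 / (32 * (r : ℝ)))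
    (h : RR δ r p T) : RR δ r (p + 8) (T - Gk 0 ((p : ℝ) + 3)) := by
  obtain ⟨σ, hσ, hlog⟩ := h
  obtain ⟨h1, h2⟩ := hσ.pos hδ |> fun _ => RRq.bound hδ hP hsm hp hpr hmod hT hσ hlog
  have hσ0 := hσ.pos hδ
  have hp15 : (60 : ℝ) ≤ p := by exact_mod_cast (show 60 ≤ p by omega)
  have h3 := Reach.step σ (p + 1) hσ (by push_cast; linarith)
  have h4 := Reach.step _ (p + 5) h3 (by
    push_cast
    rw [div_le_iff₀ hσ0]
    nlinarith)
  refine ⟨_, h4, ?_⟩
  have h5 : bet (p + 8) = bet p + (Real.log (p + 3) - Real.log (p + 1)) +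
      (Real.log (p + 7) - Real.log (p + 5)) := by
    have h6 : bet (p + 8) = bet (p + 4) + (Real.log (((p + 4 : ℕ) : ℝ) + 3) -
        Real.log (((p + 4 : ℕ) : ℝ) + 1)) := bet_add (p + 4)
    rw [bet_add p] at h6
    push_cast at h6
    have e1 : (p : ℝ) + 4 + 3 = p + 7 := by ring
    have e2 : (p : ℝ) + 4 + 1 = p + 5 := by ring
    rw [e1, e2] at h6
    exact h6
  have e3 : (p : ℝ) + 3 + 2 = p + 5 := by ring
  have e4 : (p : ℝ) + 3 + 4 = p + 7 := by ring
  push_cast
  rw [Real.log_div (by positivity) (by positivity), Real.log_div (by positivity) (by positivity),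
    Real.log_pow, Real.log_pow, hlog, h5, Gk_zero, e3, e4]
  push_cast
  ring

theorem RRq.stepB (hδ : 0 < δ) (hP : 60 ≤ P) (hsm : Small r P) {p : ℕ} (hp : P ≤ p)
    (hpr : p ≤ r) (hmod : p % 4 = r % 4) {T : ℝ} (hT : |T| ≤ 10 / (32 * (r : ℝ)))
    (h : RR δ r p T) : RR δ r (p + 8) (T + Gk 0 ((p : ℝ) + 1)) := by
  obtain ⟨σ, hσ, hlog⟩ := h
  obtain ⟨h1, h2⟩ := hσ.pos hδ |> fun _ => RRq.bound hδ hP hsm hp hpr hmod hT hσ hlog
  have hσ0 := hσ.pos hδ
  have hp15 : (60 : ℝ) ≤ p := by exact_mod_cast (show 60 ≤ p by omega)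
  have h3 := Reach.step σ (p + 3) hσ (by push_cast; linarith)
  have h4 := Reach.step _ (p + 7) h3 (by
    push_cast
    rw [div_le_iff₀ hσ0]
    nlinarith)
  refine ⟨_, h4, ?_⟩
  have h5 : bet (p + 8) = bet p + (Real.log (p + 3) - Real.log (p + 1)) +
      (Real.log (p + 7) - Real.log (p + 5)) := by
    have h6 : bet (p + 8) = bet (p + 4) + (Real.log (((p + 4 : ℕ) : ℝ) + 3) -
        Real.log (((p + 4 : ℕ) : ℝ) + 1)) := bet_add (p + 4)
    rw [bet_add p] at h6
    push_cast at h6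
    have e1 : (p : ℝ) + 4 + 3 = p + 7 := by ring
    have e2 : (p : ℝ) + 4 + 1 = p + 5 := by ring
    rw [e1, e2] at h6
    exact h6
  have e3 : (p : ℝ) + 1 + 2 = p + 3 := by ring
  have e4 : (p : ℝ) + 1 + 4 = p + 5 := by ring
  push_cast
  rw [Real.log_div (by positivity) (by positivity), Real.log_div (by positivity) (by positivity),
    Real.log_pow, Real.log_pow, hlog, h5, Gk_zero, e3, e4]
  push_cast
  ring

theorem RRq.steps (hδ : 0 < δ) (hP : 60 ≤ P) (hsm : Small r P) {p : ℕ} (hp : P ≤ p)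
    (hmod : p % 4 = r % 4) {T : ℝ} (hT : |T| ≤ 10 / (32 * (r : ℝ)))
    (h : RR δ r p T) (n : ℕ) (hn : p + 4 * n ≤ r) : RR δ r (p + 4 * n) T := by
  induction n with
  | zero => exact h
  | succ n ih =>
    have h1 := ih (by omega)
    exact RRq.stepU hδ hP hsm (p := p + 4 * n) (by omega) (by omega) (by omega) hT h1

theorem RRq.to (hδ : 0 < δ) (hP : 60 ≤ P) (hsm : Small r P) {p q : ℕ} (hp : P ≤ p)
    (hmod : p % 4 = r % 4) (hmod' : q % 4 = r % 4) {T : ℝ} (hT : |T| ≤ 10 / (32 * (r : ℝ)))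
    (h : RR δ r p T) (hpq : p ≤ q) (hq : q ≤ r) : RR δ r q T := by
  obtain ⟨n, rfl⟩ : ∃ n, q = p + 4 * n := ⟨(q - p) / 4, by omega⟩
  exact RRq.steps hδ hP hsm hp hmod hT h n hq

/-- Gadgets of both signs. -/
theorem RRq.gad (hδ : 0 < δ) (hP : 60 ≤ P) (hsm : Small r P) (k : ℕ) :
    (∀ p y q : ℕ, ∀ T : ℝ, P ≤ p → p % 4 = r % 4 → q % 4 = r % 4 → p + 3 ≤ y →
      y % 4 = (r + 3) % 4 → y + shS k + 7 ≤ q → q ≤ r →
      |T| + (k + 1) * Gk 0 P ≤ 10 / (32 * (r : ℝ)) → RR δ r p T → RR δ r q (T - Gk k y)) ∧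
    (∀ p y q : ℕ, ∀ T : ℝ, P ≤ p → p % 4 = r % 4 → q % 4 = r % 4 → p + 1 ≤ y →
      y % 4 = (r + 1) % 4 → y + shS k + 7 ≤ q → q ≤ r →
      |T| + (k + 1) * Gk 0 P ≤ 10 / (32 * (r : ℝ)) → RR δ r p T → RR δ r q (T + Gk k y)) := by
  have hPR : (0 : ℝ) < P := by exact_mod_cast (show 0 < P by omega)
  have hG : ∀ (k y : ℕ), P ≤ y → |Gk k (y : ℝ)| ≤ Gk 0 P := by
    intro k y hy
    have hy0 : (0 : ℝ) < y := by exact_mod_cast (show 0 < y by omega)
    rw [abs_of_pos (Gk_pos k hy0)]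
    refine (Gk_le_zero k hy0).trans ?_
    rcases Nat.eq_or_lt_of_le hy with h | h
    · rw [h]
    · have h1 : (y : ℝ) = P + (y - P : ℝ) := by ring
      rw [h1]
      refine Gk_anti 0 hPR ?_
      have : (P : ℝ) < y := by exact_mod_cast h
      linarith
  have hG0 : 0 < Gk 0 P := Gk_pos 0 hPR
  induction k with
  | zero =>
    have h7 : shS 0 = 4 := rfl
    constructor
    · intro p y q T hp hmp hmq hpy hy hyq hq hT h
      rw [h7] at hyq
      have hT1 : |T| ≤ 10 / (32 * (r : ℝ)) := by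
        push_cast at hT
        linarith
      have h1 := RRq.to hδ hP hsm hp hmp (q := y - 3) (by omega) hT1 h (by omega) (by omega)
      have h2 := RRq.stepA hδ hP hsm (p := y - 3) (by omega) (by omega) (by omega) hT1 h1
      have h3 : ((y - 3 : ℕ) : ℝ) + 3 = y := by
        rw [Nat.cast_sub (by omega)]
        push_cast
        ring
      rw [h3] at h2
      have hT2 : |T - Gk 0 y| ≤ 10 / (32 * (r : ℝ)) := by
        refine (abs_sub _ _).trans ?_
        have := hG 0 y (by omega)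
        push_cast at hT
        linarith
      exact RRq.to hδ hP hsm (p := y - 3 + 8) (by omega) (by omega) hmq hT2 h2 (by omega) hq
    · intro p y q T hp hmp hmq hpy hy hyq hq hT h
      rw [h7] at hyq
      have hT1 : |T| ≤ 10 / (32 * (r : ℝ)) := by
        push_cast at hT
        linarith
      have h1 := RRq.to hδ hP hsm hp hmp (q := y - 1) (by omega) hT1 h (by omega) (by omega)
      have h2 := RRq.stepB hδ hP hsm (p := y - 1) (by omega) (by omega) (by omega) hT1 h1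
      have h3 : ((y - 1 : ℕ) : ℝ) + 1 = y := by
        rw [Nat.cast_sub (by omega)]
        push_cast
        ring
      rw [h3] at h2
      have hT2 : |T + Gk 0 y| ≤ 10 / (32 * (r : ℝ)) := by
        refine (abs_add_le _ _).trans ?_
        have := hG 0 y (by omega)
        push_cast at hT
        linarith
      exact RRq.to hδ hP hsm (p := y - 1 + 8) (by omega) (by omega) hmq hT2 h2 (by omega) hq
  | succ k ih =>
    have hs1 := shS_le k
    have hs2 := shi_mod k
    obtain ⟨s, hs⟩ : ∃ s, s = shi k := ⟨_, rfl⟩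
    have hS1 : shS (k + 1) = shS k + shi k := rfl
    rw [← hs] at hs1 hs2 hS1
    constructor
    · intro p y q T hp hmp hmq hpy hy hyq hq hT h
      rw [hS1] at hyq
      push_cast at hT
      have hT1 : |T| + (k + 1) * Gk 0 P ≤ 10 / (32 * (r : ℝ)) := by
        linarith
      have h1 := ih.1 p y (y + s - 1) T hp hmp (by omega) hpy hy (by omega) (by omega) hT1 h
      have hT2 : |T - Gk k y| + (k + 1) * Gk 0 P ≤ 10 / (32 * (r : ℝ)) := by
        have h2 := (abs_sub T (Gk k y))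
        have := hG k y (by omega)
        linarith
      have h2 := ih.2 (y + s - 1) (y + s) q (T - Gk k y) (by omega) (by omega) hmq (by omega)
        (by omega) (by omega) hq hT2 h1
      rw [Gk_succ, ← hs]
      have h3 : T - (Gk k y - Gk k ((y : ℝ) + (s : ℝ))) = T - Gk k y + Gk k ((y + s : ℕ) : ℝ) := by
        push_cast
        ring
      rw [h3]
      exact h2
    · intro p y q T hp hmp hmq hpy hy hyq hq hT h
      rw [hS1] at hyq
      push_cast at hT
      have hT1 : |T| + (k + 1) * Gk 0 P ≤ 10 / (32 * (r : ℝ)) := by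
        linarith
      have h1 := ih.2 p y (y + s - 3) T hp hmp (by omega) hpy hy (by omega) (by omega) hT1 h
      have hT2 : |T + Gk k y| + (k + 1) * Gk 0 P ≤ 10 / (32 * (r : ℝ)) := by
        have h2 := (abs_add_le T (Gk k y))
        have := hG k y (by omega)
        linarith
      have h2 := ih.1 (y + s - 3) (y + s) q (T + Gk k y) (by omega) (by omega) hmq (by omega)
        (by omega) (by omega) hq hT2 h1
      rw [Gk_succ, ← hs]
      have h3 : T + (Gk k y - Gk k ((y : ℝ) + (s : ℝ))) = T + Gk k y - Gk k ((y + s : ℕ) : ℝ) := by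
        push_cast
        ring
      rw [h3]
      exact h2

end

end Pool.Agent.H350R3.QM
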