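import Mathlib
import Pool.Agent.H15.G.R_seed8.H350R3.QM.Walk

set_option autoImplicit false

/-!
# Reachable slopes very close to every large real number
-/

namespace Pool.Agent.H350R3.QM

open Pool.Agent.H932R3

theorem main_ind_real {δ r P K : ℕ} (hδ : 0 < δ) (hP : 60 ≤ P) (hsm : Small r P)
    (hmod : P % 4 = r % 4) (hth : ∀ k ≤ K, 10 * ((k + 2) * (3 + shS k)) ≤ P)
    (hr : 5 ^ (K + 1) * P ≤ r) {η : ℝ}
    (hbud : |η| + 4 * ((K : ℝ) + 2) / (P : ℝ) ^ 2 ≤ 10 / (32 * (r : ℝ)))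
    {T : ℝ} (hT : RR δ r P (T - η)) (hT1 : wl 0 P ≤ T) (hT2 : T ≤ wu 0 P) :
    ∃ σ T', Reach δ σ ∧ Real.log σ = Real.log r + 2 * η - 2 * T' ∧ 0 < T' ∧
      T' ≤ wu (K + 1) (5 ^ (K + 1) * (P : ℝ)) := by
  have hPR : (0 : ℝ) < P := by exact_mod_cast (show 0 < P by omega)
  have hmodk : ∀ k : ℕ, (5 ^ k * P) % 4 = r % 4 := by
    intro k
    have h : 5 ^ k % 4 = 1 := by
      rw [Nat.pow_mod]
      norm_num
    rw [Nat.mul_mod, h, one_mul, Nat.mod_mod, hmod]
  have hG0 : Gk 0 P ≤ 4 / (P : ℝ) ^ 2 := by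
    have := (Gk_bounds 0 hPR).2
    rwa [ck_zero] at this
  have hwu0 : wu 0 P ≤ 4 / (P : ℝ) ^ 2 := by
    unfold wu
    have h2 : (P : ℝ) ^ (0 + 2) = (P : ℝ) ^ 2 := rfl
    rw [ck_zero, h2, div_le_div_iff₀ (by positivity) (by positivity)]
    nlinarith [pow_pos hPR 2]
  have hwl0 : ∀ k (x : ℝ), 0 < x → 0 < wl k x := by
    intro k x hx
    unfold wl
    have := ck_pos k
    positivity
  have key : ∀ k ≤ K + 1, ∃ T', RR δ r (5 ^ k * P) (T' - η) ∧ wl k (5 ^ k * (P : ℝ)) ≤ T' ∧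
      T' ≤ wu k (5 ^ k * (P : ℝ)) ∧ T' ≤ 4 / (P : ℝ) ^ 2 := by
    intro k
    induction k with
    | zero =>
      intro _
      refine ⟨T, by simpa using hT, by simpa using hT1, by simpa using hT2, hT2.trans hwu0⟩
    | succ k ih =>
      intro hk
      obtain ⟨T', h1, h2, h3, h4⟩ := ih (by omega)
      have h5 := hth k (by omega)
      have h6 : P ≤ 5 ^ k * P := Nat.le_mul_of_pos_left P (by positivity)
      have hSk : shS k + 10 ≤ P := by
        have : 1 * (3 + shS k) ≤ (k + 2) * (3 + shS k) := Nat.mul_le_mul_right _ (by omega)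
        omega
      have h7 : ((5 ^ k * P : ℕ) : ℝ) = 5 ^ k * (P : ℝ) := by push_cast; ring
      obtain ⟨i, hi1, hi2, hi3⟩ := stage k (5 ^ k * P) (h5.trans h6) (T := T')
        (by rw [h7]; exact h2) (by rw [h7]; exact h3)
      have h8 : 5 ^ (k + 1) * P = 5 * (5 ^ k * P) := by ring
      have h8' : (5 : ℝ) ^ (k + 1) * P = 5 * (5 ^ k * P) := by ring
      have h9 : 5 ^ (k + 1) * P ≤ r :=
        (Nat.mul_le_mul_right P (Nat.pow_le_pow_right (by norm_num) hk)).trans hr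
      have hT0 : 0 < T' := lt_of_lt_of_le (hwl0 k _ (by positivity)) h2
      have hkK : (k : ℝ) ≤ K := by exact_mod_cast (show k ≤ K by omega)
      have h10 := (RRq.gad hδ hP hsm k).1 (5 ^ k * P) (5 ^ k * P + 3 + 4 * i) (5 ^ (k + 1) * P) (T' - η)
        h6 (hmodk k) (hmodk (k + 1)) (by omega) (by
          have := hmodk k
          omega) (by omega) h9 (by
          refine le_trans ?_ hbud
          have h14 : |T' - η| ≤ |η| + T' := by
            have := abs_sub T' η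
            rw [abs_of_pos hT0] at this
            linarith
          have h11 : (k + 1) * Gk 0 P ≤ (K + 1) * (4 / (P : ℝ) ^ 2) :=
            mul_le_mul (by linarith) hG0 (Gk_pos 0 hPR).le (by positivity)
          have h12 : 4 * ((K : ℝ) + 2) / (P : ℝ) ^ 2 =
              4 / (P : ℝ) ^ 2 + (K + 1) * (4 / (P : ℝ) ^ 2) := by ring
          rw [h12]
          linarith) h1
      have hy : (0 : ℝ) < ((5 ^ k * P + 3 + 4 * i : ℕ) : ℝ) := by positivity
      have h13 := Gk_pos k hy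
      have h15 : T' - η - Gk k ((5 ^ k * P + 3 + 4 * i : ℕ) : ℝ) =
          T' - Gk k ((5 ^ k * P + 3 + 4 * i : ℕ) : ℝ) - η := by ring
      rw [h15] at h10
      refine ⟨_, h10, ?_, ?_, by linarith⟩
      · rw [h8', ← h7]
        exact hi2
      · rw [h8', ← h7]
        exact hi3
  obtain ⟨T', h1, h2, h3, h4⟩ := key (K + 1) le_rfl
  have hT0 : 0 < T' := lt_of_lt_of_le (hwl0 (K + 1) _ (by positivity)) h2
  have h5 : P ≤ 5 ^ (K + 1) * P := Nat.le_mul_of_pos_left P (by positivity)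
  obtain ⟨σ, hσ, hlog⟩ := RRq.to hδ hP hsm h5 (hmodk (K + 1)) rfl (T := T' - η) (by
    have h14 : |T' - η| ≤ |η| + T' := by
      have := abs_sub T' η
      rw [abs_of_pos hT0] at this
      linarith
    refine h14.trans (le_trans ?_ hbud)
    have h6 : 4 * ((K : ℝ) + 2) / (P : ℝ) ^ 2 =
        4 / (P : ℝ) ^ 2 + (K + 1) * (4 / (P : ℝ) ^ 2) := by ring
    rw [h6]
    have : 0 ≤ ((K : ℝ) + 1) * (4 / (P : ℝ) ^ 2) := by positivity
    linarith) h1 hr le_rfl
  refine ⟨σ, T', hσ, ?_, hT0, h3⟩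
  rw [hlog]
  unfold gam
  ring


end Pool.Agent.H350R3.QM
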