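import Mathlib
import Pool.Agent.H15.G.R_seed8.H350R3.QM.Pre

set_option autoImplicit false

/-!
# Reachable slopes very close to every large real number
-/

namespace Pool.Agent.H350R3.QM

open Pool.Agent.H932R3

theorem eta_bound {t : ℝ} {r : ℕ} (hr : 100 ≤ r) (h1 : (r : ℝ) - 1 / 2 ≤ t)
    (h2 : t ≤ (r : ℝ) + 1 / 2) :
    |(Real.log t - Real.log r) / 2| ≤ 9 / (32 * (r : ℝ)) := by
  have hr' : (100 : ℝ) ≤ r := by exact_mod_cast hr
  have hr0 : (0 : ℝ) < r := by linarith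
  have ht0 : 0 < t := by linarith
  have h3 : Real.log t - Real.log r ≤ 18 / (32 * (r : ℝ)) := by
    rw [← Real.log_div ht0.ne' hr0.ne']
    have h4 := Real.log_le_sub_one_of_pos (div_pos ht0 hr0)
    refine h4.trans ?_
    rw [div_sub_one hr0.ne', div_le_div_iff₀ hr0 (by positivity)]
    nlinarith
  have h4 : -(18 / (32 * (r : ℝ))) ≤ Real.log t - Real.log r := by
    have h5 := Real.log_le_sub_one_of_pos (div_pos hr0 ht0)
    rw [Real.log_div hr0.ne' ht0.ne', div_sub_one ht0.ne'] at h5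
    have h6 : ((r : ℝ) - t) / t ≤ 18 / (32 * (r : ℝ)) := by
      rw [div_le_div_iff₀ ht0 (by positivity)]
      nlinarith
    linarith
  have h5 : 9 / (32 * (r : ℝ)) = 18 / (32 * (r : ℝ)) / 2 := by ring
  rw [h5, abs_le]
  constructor <;> linarith

/-- **Reachable slopes very close to every large real number.** -/
theorem exists_close_real (K : ℕ) : ∃ N : ℕ, ∀ t : ℝ, (N : ℝ) ≤ t → ∃ (δ : ℕ) (σ : ℝ), 4 ≤ δ ∧
    (δ : ℝ) ^ 2 ≤ t ∧ Reach δ σ ∧ 0 < t - σ ∧ t - σ ≤ 1 / t ^ K := by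
  obtain ⟨A, hA⟩ : ∃ A : ℕ, A = 5 ^ (K + 1) := ⟨_, rfl⟩
  have hA0 : 0 < A := by rw [hA]; positivity
  have hA5 : 5 ≤ A := by
    rw [hA, pow_succ]
    exact Nat.le_mul_of_pos_left 5 (by positivity)
  obtain ⟨W, hW⟩ : ∃ W : ℕ, W = (K + 2) * (3 + shS K) := ⟨_, rfl⟩
  have hW0 : K + 2 ≤ W := by
    rw [hW]
    exact Nat.le_mul_of_pos_right _ (by omega)
  obtain ⟨V, hV⟩ : ∃ V : ℕ, V = 4 * (shQ (K + 1) * (K + 2).factorial) * 9 ^ (K + 3) * 2 ^ K :=
    ⟨_, rfl⟩
  refine ⟨1000000 * (A * A * W) + V + 1, fun t ht => ?_⟩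
  obtain ⟨r, hr⟩ : ∃ r : ℕ, r = ⌊t + 1 / 2⌋₊ := ⟨_, rfl⟩
  have ht0 : 0 ≤ t + 1 / 2 := by
    have : (0 : ℝ) ≤ ((1000000 * (A * A * W) + V + 1 : ℕ) : ℝ) := Nat.cast_nonneg _
    linarith
  have hr1 : (r : ℝ) - 1 / 2 ≤ t := by
    have := Nat.floor_le ht0
    rw [← hr] at this
    linarith
  have hr2 : t ≤ (r : ℝ) + 1 / 2 := by
    have := Nat.lt_floor_add_one (t + 1 / 2)
    rw [← hr] at this
    linarith
  have hrN : 1000000 * (A * A * W) + V ≤ r := by
    rw [hr]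
    refine Nat.le_floor ?_
    push_cast at ht ⊢
    linarith
  have hAA : A ≤ A * A := Nat.le_mul_of_pos_left A hA0
  have hAW : A * A ≤ A * A * W := Nat.le_mul_of_pos_right _ (by omega)
  obtain ⟨δ, P, hP1, hP2, hP3, hP4⟩ := choose_delta (A := 3 * A) (r := r) (by omega) (by omega)
  have hPW : 100000 * (A * W) ≤ P := by
    have h1 : A * (1000000 * (A * W)) ≤ A * (9 * P) := by
      have e1 : A * (1000000 * (A * W)) = 1000000 * (A * A * W) := by ring
      have e2 : A * (9 * P) = 3 * (3 * A * P) := by ring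
      rw [e1, e2]
      omega
    have := Nat.le_of_mul_le_mul_left h1 hA0
    omega
  have hWAW : W ≤ A * W := Nat.le_mul_of_pos_left W hA0
  have hP5000 : 100000 ≤ P := by omega
  have hPP : 512 * (K + 2) * r ≤ P * P := by
    have h1 : 100000 * (A * W) * P ≤ P * P := Nat.mul_le_mul_right P hPW
    have h2 : 100000 * (A * W) * P = 100000 * (W * (A * P)) := by ring
    have h3 : 512 * (K + 2) * r ≤ 512 * W * (3 * (3 * A * P)) :=
      Nat.mul_le_mul (Nat.mul_le_mul_left _ hW0) hP4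
    have h4 : 512 * W * (3 * (3 * A * P)) = 4608 * (W * (A * P)) := by ring
    omega
  have hPR : (100000 : ℝ) ≤ P := by exact_mod_cast hP5000
  have hAP : P ≤ A * P := Nat.le_mul_of_pos_left P hA0
  have h3AP : 3 * A * P = 3 * (A * P) := by ring
  have h5AP : 5 * P ≤ A * P := Nat.mul_le_mul_right P hA5
  have hr15 : 15 * P ≤ r := by omega
  have hrR : (100000 : ℝ) ≤ r := by
    have : 100000 ≤ r := by omega
    exact_mod_cast this
  have hPPR : 512 * ((K : ℝ) + 2) * r ≤ (P : ℝ) * P := by exact_mod_cast hPP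
  have hδδ : 1000 ≤ δ * δ := by omega
  have hδ : 4 ≤ δ := by
    by_contra h
    have : δ * δ ≤ 3 * 3 := Nat.mul_le_mul (by omega) (by omega)
    omega
  have hK0 : (0 : ℝ) ≤ K := Nat.cast_nonneg K
  have hsm : Small r P := by
    intro p hp hpr hmod
    obtain ⟨hg1, hg2⟩ := gam_le (p := p) (by omega) ((r - p) / 4)
    have hrr : p + 4 * ((r - p) / 4) = r := by omega
    rw [hrr] at hg1 hg2
    rw [abs_of_nonneg hg1]
    refine hg2.trans ?_
    have hpP : (P : ℝ) ≤ p := by exact_mod_cast hp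
    have h1 : 0 ≤ 1 / (4 * ((p : ℝ) + 4 * (((r - p) / 4 : ℕ) : ℝ) - 2) ^ 2) := by positivity
    have h2 : 1 / (4 * ((p : ℝ) - 2) ^ 2) ≤ 1 / (32 * (r : ℝ)) := by
      refine div_le_div_of_nonneg_left (by norm_num) (by positivity) ?_
      have h3 : ((P : ℝ) / 2) ^ 2 ≤ ((p : ℝ) - 2) ^ 2 :=
        pow_le_pow_left₀ (by linarith) (by linarith) 2
      have h4 : 256 * (r : ℝ) ≤ 512 * ((K : ℝ) + 2) * r := by nlinarith
      nlinarith
    linarith
  obtain ⟨η, hη⟩ : ∃ η, η = (Real.log t - Real.log r) / 2 := ⟨_, rfl⟩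
  have hηb : |η| ≤ 9 / (32 * (r : ℝ)) := by
    rw [hη]
    exact eta_bound (by omega) hr1 hr2
  have hT : ∃ T, RR δ r P T ∧ wl 0 (P : ℝ) ≤ T ∧ T ≤ wu 0 (P : ℝ) := by
    rcases hP1 with rfl | rfl
    · exact start_two hδδ hP2 (by omega)
    · exact start_zero hδδ hP2 (by omega)
  obtain ⟨T0, hT1, hT2, hT3⟩ := hT
  have hten : 10 / (32 * (r : ℝ)) = 9 / (32 * (r : ℝ)) + 1 / (32 * (r : ℝ)) := by ring
  obtain ⟨P', T, hP'1, hP'2, hP'3, hR, hw1, hw2⟩ := prestage (by omega) (by omega) hsm hP2 hr15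
    hηb (by
      rw [hten]
      have h8 : 8 / (P : ℝ) ^ 2 ≤ 1 / (32 * (r : ℝ)) := by
        rw [div_le_div_iff₀ (by positivity) (by positivity)]
        nlinarith
      linarith) hT1 hT2 hT3
  have hPP' : (P : ℝ) ≤ P' := by exact_mod_cast hP'1
  have hP'0 : (0 : ℝ) < P' := by linarith
  have hsm' : Small r P' := fun p hp => hsm p (by omega)
  have hth : ∀ k ≤ K, 10 * ((k + 2) * (3 + shS k)) ≤ P' := by
    intro k hk
    have h1 : (k + 2) * (3 + shS k) ≤ (K + 2) * (3 + shS K) :=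
      Nat.mul_le_mul (by omega) (by have := shS_mono hk; omega)
    rw [← hW] at h1
    omega
  obtain ⟨σ, T', hσ, hlog, hT'0, hT'⟩ := main_ind_real (K := K) (r := r) (P := P') (by omega)
    (by omega) hsm' hP'3 hth (by
      rw [← hA]
      have h1 : A * P' ≤ A * (3 * P) := Nat.mul_le_mul_left A hP'2
      have h2 : A * (3 * P) = 3 * A * P := by ring
      omega) (η := η) (by
      rw [hten]
      have h8 : 4 * ((K : ℝ) + 2) / (P' : ℝ) ^ 2 ≤ 1 / (32 * (r : ℝ)) := by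
        rw [div_le_div_iff₀ (by positivity) (by positivity)]
        nlinarith
      linarith) hR hw1 hw2
  have hσ0 : 0 < σ := hσ.pos (by omega)
  have hr0 : (0 : ℝ) < r := by linarith
  have htp : 0 < t := by linarith
  have hlogt : Real.log σ = Real.log t - 2 * T' := by
    rw [hlog, hη]
    ring
  have hσe : σ = t * Real.exp (-(2 * T')) := by
    rw [← Real.exp_log hσ0, hlogt, sub_eq_add_neg, Real.exp_add, Real.exp_log htp]
  have hexp1 : Real.exp (-(2 * T')) < 1 := by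
    rw [Real.exp_lt_one_iff]
    linarith
  have hexp2 : 1 - 2 * T' ≤ Real.exp (-(2 * T')) := by
    have := Real.add_one_le_exp (-(2 * T'))
    linarith
  refine ⟨δ, σ, hδ, ?_, hσ, ?_, ?_⟩
  · have h1 : δ * δ ≤ P := by omega
    have h2 : (δ : ℝ) * δ ≤ P := by exact_mod_cast h1
    have h3 : 15 * (P : ℝ) ≤ r := by exact_mod_cast hr15
    rw [pow_two]
    linarith
  · rw [hσe]
    have h1 : t * Real.exp (-(2 * T')) < t * 1 := mul_lt_mul_of_pos_left hexp1 htp
    linarith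
  · have htr : t ≤ 2 * r := by linarith
    have h1 : t - σ ≤ 4 * r * T' := by
      rw [hσe]
      have h2 : t * (1 - 2 * T') ≤ t * Real.exp (-(2 * T')) :=
        mul_le_mul_of_nonneg_left hexp2 htp.le
      have h3 : t * T' ≤ 2 * r * T' := mul_le_mul_of_nonneg_right htr hT'0.le
      nlinarith
    refine h1.trans ?_
    have h2 : (r : ℝ) / 9 ≤ 5 ^ (K + 1) * (P' : ℝ) := by
      have h3 : (r : ℝ) ≤ 3 * (3 * (A : ℝ) * P) := by exact_mod_cast hP4
      have h4 : (A : ℝ) = 5 ^ (K + 1) := by rw [hA]; push_cast; ring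
      rw [h4] at h3
      have h5 : (5 : ℝ) ^ (K + 1) * P ≤ 5 ^ (K + 1) * P' :=
        mul_le_mul_of_nonneg_left hPP' (by positivity)
      linarith
    have h5 : wu (K + 1) (5 ^ (K + 1) * (P' : ℝ)) ≤ ck (K + 1) / ((r : ℝ) / 9) ^ (K + 3) := by
      unfold wu
      have hc := ck_pos (K + 1)
      have h6 : ((r : ℝ) / 9) ^ (K + 3) ≤ (5 ^ (K + 1) * (P' : ℝ)) ^ (K + 3) :=
        pow_le_pow_left₀ (by positivity) h2 _
      have h7 : K + 1 + 2 = K + 3 := rfl
      rw [h7, div_le_div_iff₀ (by positivity) (by positivity)]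
      have h8 : 0 < (5 ^ (K + 1) * (P' : ℝ)) ^ (K + 3) := by positivity
      nlinarith [mul_le_mul_of_nonneg_left h6 hc.le, mul_pos hc h8]
    have h9 : ck (K + 1) / ((r : ℝ) / 9) ^ (K + 3) * (4 * r) * 2 ^ K =
        (V : ℝ) / (r : ℝ) ^ (K + 2) := by
      rw [hV]
      unfold ck
      have : K + 1 + 1 = K + 2 := rfl
      rw [this]
      push_cast
      rw [div_pow, pow_succ (r : ℝ) (K + 2)]
      field_simp
    have h10 : (V : ℝ) / (r : ℝ) ^ (K + 2) ≤ 1 / (r : ℝ) ^ K := by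
      rw [div_le_div_iff₀ (by positivity) (by positivity), one_mul, pow_add]
      have h11 : (V : ℝ) ≤ r := by
        have : V ≤ r := by omega
        exact_mod_cast this
      have h12 : (V : ℝ) ≤ (r : ℝ) ^ 2 := by nlinarith
      have h13 : (0 : ℝ) < (r : ℝ) ^ K := by positivity
      nlinarith
    have h11 : 4 * r * T' * 2 ^ K ≤ 1 / (r : ℝ) ^ K := by
      calc 4 * r * T' * 2 ^ K ≤
            4 * r * (ck (K + 1) / ((r : ℝ) / 9) ^ (K + 3)) * 2 ^ K := by
            refine mul_le_mul_of_nonneg_right ?_ (by positivity)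
            exact mul_le_mul_of_nonneg_left (hT'.trans h5) (by positivity)
        _ = (V : ℝ) / (r : ℝ) ^ (K + 2) := by rw [← h9]; ring
        _ ≤ 1 / (r : ℝ) ^ K := h10
    have h12 : t ^ K ≤ (2 * r) ^ K := pow_le_pow_left₀ htp.le htr K
    rw [le_div_iff₀ (by positivity)] at h11 ⊢
    have h13 : 0 ≤ 4 * (r : ℝ) * T' := by positivity
    calc 4 * (r : ℝ) * T' * t ^ K ≤ 4 * r * T' * (2 * r) ^ K :=
          mul_le_mul_of_nonneg_left h12 h13
      _ = 4 * r * T' * 2 ^ K * r ^ K := by rw [mul_pow]; ring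
      _ ≤ 1 := h11

end Pool.Agent.H350R3.QM
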